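import Pool.Agent.Helper16.FAM.Defs

/-!
# FAM, piece P7: the fibre step

`fibre_of` proves the statement `fibre` from the statements of the pieces Q3, P2 and P6 (taken as
hypotheses, exactly as in `Pool/Agent/Helper16/FAM/St.lean`).
-/

namespace Pool.Agent.Helper75.FAM

open Polynomial Pool.Agent.Helper16.FAM

universe u

/-- the square free part of a polynomial in characteristic zero -/
theorem exists_squarefree_part {F : Type u} [Field F] [CharZero F] :
    ∀ (n : ℕ) (q : F[X]), q ≠ 0 → q.natDegree ≤ n →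
      ∃ g h : F[X], q = g * h ^ 2 ∧ g.Separable := by
  intro n
  induction n with
  | zero =>
    intro q hq hn
    refine ⟨q, 1, by ring, ?_⟩
    have h1 : IsUnit q := by
      rw [Polynomial.isUnit_iff_degree_eq_zero, Polynomial.degree_eq_natDegree hq]
      have : q.natDegree = 0 := by omega
      rw [this]; rfl
    exact PerfectField.separable_iff_squarefree.mpr h1.squarefree
  | succ n ih =>
    intro q hq hn
    by_cases hs : Squarefree q
    · exact ⟨q, 1, by ring, PerfectField.separable_iff_squarefree.mpr hs⟩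
    · unfold Squarefree at hs
      push Not at hs
      obtain ⟨x, ⟨y, hy⟩, hx⟩ := hs
      have hx0 : x ≠ 0 := by
        rintro rfl; apply hq; rw [hy]; ring
      have hy0 : y ≠ 0 := by
        rintro rfl; apply hq; rw [hy]; ring
      have hdx : 1 ≤ x.natDegree := by
        by_contra hlt
        apply hx
        rw [Polynomial.isUnit_iff_degree_eq_zero, Polynomial.degree_eq_natDegree hx0]
        have : x.natDegree = 0 := by omega
        rw [this]; rfl
      have hd : q.natDegree = x.natDegree + x.natDegree + y.natDegree := by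
        rw [hy, Polynomial.natDegree_mul (mul_ne_zero hx0 hx0) hy0,
          Polynomial.natDegree_mul hx0 hx0]
      obtain ⟨g, h, hgh, hg⟩ := ih y hy0 (by omega)
      exact ⟨g, x * h, by rw [hy, hgh]; ring, hg⟩

theorem fibre_of
    (exists_heights : ∀ {k L : Type u} [Field k] [CharZero k] [Field L] [Algebra k L] {t : L}
      (_ : IsFF k L t),
      ∃ inst : Height.AdmissibleAbsValues L, inst.archAbsVal = 0 ∧
        (∀ v ∈ inst.nonarchAbsVal, ∀ a : k, a ≠ 0 → v (algebraMap k L a) = 1) ∧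
        1 < Height.mulHeight₁ t)
    (root_bound : ∀ {k L : Type u} [Field k] [Field L] [Algebra k L]
      [inst : Height.AdmissibleAbsValues L] (_ : inst.archAbsVal = 0)
      (_ : ∀ v ∈ inst.nonarchAbsVal, ∀ a : k, a ≠ 0 → v (algebraMap k L a) = 1)
      (W : Submodule k L[X]) (_ : W.FG),
      ∃ B : ℝ, ∀ g ∈ W, g ≠ 0 → ∀ x : L, g.eval x = 0 → Height.mulHeight₁ x ≤ B)
    (unbounded : ∀ {L : Type u} [Field L] [CharZero L] [Height.AdmissibleAbsValues L]
      (L₁ : Subfield L) (q : L₁[X]) (_ : q.Separable) (_ : q.natDegree ≤ 4) (t : L₁)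
      (_ : 1 < Height.mulHeight₁ (t : L)),
      ∀ Z : Finset L₁, ∃ p : ℤ[X], aeval t p ∉ Z ∧ ∀ M : ℝ, ∃ x ρ : L₁,
        M ≤ Height.mulHeight₁ (x : L) ∧ q.eval x = ρ ^ 2 * q.eval (aeval t p))
    {k L : Type u} [Field k] [CharZero k] [Field L] [Algebra k L] {t : L}
    (h : IsFF k L t) (q : L[X]) (hq : q ≠ 0) (h4 : q.natDegree ≤ 4) :
    ∃ p : ℤ[X], q.eval (aeval t p) ≠ 0 ∧ ∀ L₀ : Subfield L, t ∈ L₀ → (∀ i, q.coeff i ∈ L₀) →
      ∀ W : Submodule k L[X], W.FG → ∃ x ρ : L, x ∈ L₀ ∧ ρ ∈ L₀ ∧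
        q.eval x = ρ ^ 2 * q.eval (aeval t p) ∧ ∀ g ∈ W, g ≠ 0 → g.eval x ≠ 0 := by
  classical
  obtain ⟨inst, harch, hk, ht⟩ := exists_heights h
  have hchar : CharZero L := charZero_of_injective_algebraMap (algebraMap k L).injective
  set L₁ : Subfield L := Subfield.closure ({t} ∪ Set.range q.coeff) with hL₁
  have htL : t ∈ L₁ := Subfield.subset_closure (Or.inl rfl)
  have hcL : ∀ i, q.coeff i ∈ L₁ := fun i => Subfield.subset_closure (Or.inr ⟨i, rfl⟩)
  obtain ⟨q₁, hq₁⟩ : ∃ q₁ : L₁[X], q₁.map (algebraMap L₁ L) = q := by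
    have hmem : q ∈ Polynomial.lifts (algebraMap L₁ L) := by
      rw [Polynomial.lifts_iff_coeff_lifts]
      intro i
      exact ⟨⟨q.coeff i, hcL i⟩, rfl⟩
    rw [Polynomial.mem_lifts] at hmem
    exact hmem
  have hev : ∀ y : L₁, q.eval (y : L) = ((q₁.eval y : L₁) : L) := by
    intro y
    rw [← hq₁, Polynomial.eval_map]
    exact (Polynomial.eval₂_hom (algebraMap L₁ L) y)
  have hq₁0 : q₁ ≠ 0 := by
    rintro rfl
    rw [Polynomial.map_zero] at hq₁
    exact hq hq₁.symm
  have hdeg : q₁.natDegree ≤ 4 := by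
    rw [← hq₁, Polynomial.natDegree_map] at h4
    exact h4
  obtain ⟨g, r, hgr, hg⟩ := exists_squarefree_part 4 q₁ hq₁0 hdeg
  have hg0 : g ≠ 0 := by rintro rfl; apply hq₁0; rw [hgr]; ring
  have hr0 : r ≠ 0 := by rintro rfl; apply hq₁0; rw [hgr]; ring
  have hg4 : g.natDegree ≤ 4 := by
    rw [hgr, Polynomial.natDegree_mul hg0 (pow_ne_zero 2 hr0)] at hdeg
    omega
  obtain ⟨p, hpZ, hp⟩ := unbounded L₁ g hg hg4 ⟨t, htL⟩ ht q₁.roots.toFinset
  set c : L₁ := aeval (⟨t, htL⟩ : L₁) p with hc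
  have hcoe : ((c : L₁) : L) = aeval t p := by
    have := (Polynomial.aeval_algebraMap_apply L (⟨t, htL⟩ : L₁) p).symm
    exact this
  have hqc : q₁.eval c ≠ 0 := by
    intro h0
    apply hpZ
    rw [Multiset.mem_toFinset, Polynomial.mem_roots hq₁0]
    exact h0
  have hrc : r.eval c ≠ 0 := by
    intro h0
    apply hqc
    rw [hgr, Polynomial.eval_mul, Polynomial.eval_pow, h0]; ring
  refine ⟨p, ?_, ?_⟩
  · rw [← hcoe, hev]
    intro h0
    exact hqc (by exact_mod_cast h0)
  · intro L₀ htL₀ hcL₀ W hW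
    have hle : L₁ ≤ L₀ := by
      rw [hL₁, Subfield.closure_le]
      rintro a (ha | ⟨i, rfl⟩)
      · rw [Set.mem_singleton_iff] at ha; rw [ha]; exact htL₀
      · exact hcL₀ i
    obtain ⟨B, hB⟩ := root_bound harch hk W hW
    obtain ⟨x, ρ, hx, hρ⟩ := hp (B + 1)
    refine ⟨(x : L), ((ρ * r.eval x / r.eval c : L₁) : L), hle x.2, hle (Subtype.mem _), ?_, ?_⟩
    · rw [← hcoe, hev, hev]
      have : q₁.eval x = (ρ * r.eval x / r.eval c) ^ 2 * q₁.eval c := by
        rw [hgr, Polynomial.eval_mul, Polynomial.eval_pow, Polynomial.eval_mul,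
          Polynomial.eval_pow, hρ]
        field_simp
      rw [this]
      push_cast
      ring
    · intro g' hg' hg'0 h0
      have := hB g' hg' hg'0 x h0
      linarith

end Pool.Agent.Helper75.FAM
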